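import Pool.Agent.Helper58.R3.Stmts

/-!
# MP_7ef5a1_co: module AV
-/

set_option autoImplicit false
open Classical

namespace Pool.Agent.Helper68.R3

open Pool.Agent.Helper58.R3

theorem av_mem_nb {m : ℕ} {H : SimpleGraph (Fin m)} {F : Finset (Fin m)} {x : Fin m} :
    x ∈ nb H F ↔ x ∉ F ∧ ∃ y ∈ F, H.Adj y x := by
  unfold nb
  rw [Finset.mem_filter]
  exact ⟨fun h => h.2, fun h => ⟨Finset.mem_univ _, h⟩⟩

theorem av_mem_N {m : ℕ} {H : SimpleGraph (Fin m)} {v x : Fin m} :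
    x ∈ N H v ↔ H.Adj v x := by
  unfold N
  rw [Finset.mem_filter]
  exact ⟨fun h => h.2, fun h => ⟨Finset.mem_univ _, h⟩⟩

theorem st_AV : ST_AV := by
  intro m H v0 A X L D Φ i a h2 n hno K Θ l hK hK3 hemb hav hx x1 hx1 hx1L
  obtain ⟨x0, hx0, hx0X⟩ := hx
  have c := h2.c
  have hx0K : x0 ∉ K := (av_mem_nb.1 hx0).1
  set Q : Finset (Fin m) := K.filter (fun x => Θ x ∈ L l) with hQ
  have hQm : ∀ x, x ∈ Q ↔ x ∈ K ∧ Θ x ∈ L l := fun x => by rw [hQ, Finset.mem_filter]
  have hx1Q : x1 ∈ Q := (hQm x1).2 ⟨hx1, hx1L⟩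
  have hKn : ∀ x ∈ K, ∀ z, H.Adj x z → z ∈ K ∪ nb H K := by
    intro x hx z hxz
    by_cases hz : z ∈ K
    · exact Finset.mem_union_left _ hz
    · exact Finset.mem_union_right _ (av_mem_nb.2 ⟨hz, x, hx, hxz⟩)
  -- the boundary of `Q`
  have hnbQ : ∀ z ∈ nb H Q, z ∈ K ∪ nb H K ∧ Θ z ∈ D l := by
    intro z hz
    obtain ⟨hzQ, q, hq, hqz⟩ := av_mem_nb.1 hz
    have hqK := ((hQm q).1 hq).1
    have hqL := ((hQm q).1 hq).2
    have hz2 := hKn q hqK z hqz
    refine ⟨hz2, ?_⟩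
    have hadj := hemb.hom q (Finset.mem_union_left _ hqK) z hz2 hqz
    rcases c.nbL l _ hqL _ hadj with h | h
    · exfalso
      rcases Finset.mem_union.1 hz2 with hzK | hzN
      · exact hzQ ((hQm z).2 ⟨hzK, h⟩)
      · exact hav z hzN h
    · exact h
  have hx0Q : x0 ∉ Q := fun h => hx0K ((hQm x0).1 h).1
  have hx0nQ : x0 ∉ nb H Q := fun h => hx0X (c.DX l _ (hnbQ x0 h).2)
  have hge : 3 ≤ (nb H Q).card := by
    by_contra hcon
    rcases c.k3 Q ⟨x1, hx1Q⟩ (by omega) x0 with h | h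
    · exact hx0Q h
    · exact hx0nQ h
  have hD3 : (D l).card = 3 := h2.D3 l ⟨_, hx1L⟩
  have himg : (nb H Q).image Θ ⊆ D l := by
    intro y hy
    obtain ⟨z, hz, rfl⟩ := Finset.mem_image.1 hy
    exact (hnbQ z hz).2
  have hcimg : ((nb H Q).image Θ).card = (nb H Q).card := by
    apply Finset.card_image_of_injOn
    intro x hx y hy hxy
    exact hemb.inj x (hnbQ x hx).1 y (hnbQ y hy).1 hxy
  have hle : (nb H Q).card ≤ 3 := by
    rw [← hcimg, ← hD3]
    exact Finset.card_le_card himg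
  have hQ3 : (nb H Q).card = 3 := le_antisymm hle hge
  have himgeq : (nb H Q).image Θ = D l := by
    apply Finset.eq_of_subset_of_card_le himg
    rw [hcimg, hQ3, hD3]
  -- an element of `K` in the boundary
  obtain ⟨d', hd', hd'K⟩ : ∃ d ∈ nb H Q, d ∈ K := by
    by_contra hcon
    push Not at hcon
    have hsub : nb H Q ⊆ nb H K := by
      intro z hz
      rcases Finset.mem_union.1 (hnbQ z hz).1 with h | h
      · exact absurd h (hcon z hz)
      · exact h
    have : nb H Q = nb H K := Finset.eq_of_subset_of_card_le hsub (by rw [hQ3, hK3])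
    exact hx0nQ (this ▸ hx0)
  have hQlt : Q.card < K.card := by
    apply Finset.card_lt_card
    rw [Finset.ssubset_iff_of_subset (Finset.filter_subset _ _)]
    exact ⟨d', hd'K, (av_mem_nb.1 hd').1⟩
  -- the composition
  have hLD : ∀ x ∈ Q ∪ nb H Q, x ∈ K ∪ nb H K ∧ Θ x ∈ L l ∪ D l := by
    intro x hx
    rcases Finset.mem_union.1 hx with h | h
    · exact ⟨Finset.mem_union_left _ ((hQm x).1 h).1, Finset.mem_union_left _ ((hQm x).1 h).2⟩
    · exact ⟨(hnbQ x h).1, Finset.mem_union_right _ (hnbQ x h).2⟩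
  have hnoedge : ∀ x ∈ Q, ∀ y ∈ Q, ¬ H.Adj x y := by
    by_contra hcon
    push Not at hcon
    obtain ⟨x, hx, y, hy, hxy⟩ := hcon
    have hP : Pc H v0 Q (fun x => Φ l (Θ x)) := by
      refine ⟨hQ3, ⟨?_, ?_⟩, ?_, ?_, ⟨x, hx, y, hy, hxy⟩⟩
      · intro x hx y hy hxy
        exact hemb.inj x (hLD x hx).1 y (hLD y hy).1
          (c.inj l _ (hLD x hx).2 _ (hLD y hy).2 hxy)
      · intro x hx y hy hxy
        exact c.hom l _ (hLD x hx).2 _ (hLD y hy).2
          (hemb.hom x (hLD x hx).1 y (hLD y hy).1 hxy)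
      · intro x hx
        exact (c.ΦL l _ ((hQm x).1 hx).2).1
      · intro x hx
        exact c.ΦD l _ (hnbQ x hx).2
    have := hno Q _ hP
    omega
  -- the neighbours of `x1`
  have hNsub : N H x1 ⊆ nb H Q := by
    intro z hz
    have hz' := av_mem_N.1 hz
    exact av_mem_nb.2 ⟨fun hzQ => hnoedge x1 hx1Q z hzQ hz', x1, hx1Q, hz'⟩
  have hnb1 : nb H {x1} = N H x1 := by
    ext z
    rw [av_mem_nb, av_mem_N]
    constructor
    · rintro ⟨_, y, hy, hyz⟩
      rw [Finset.mem_singleton] at hy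
      rw [← hy]; exact hyz
    · intro h
      refine ⟨?_, x1, Finset.mem_singleton_self _, h⟩
      rw [Finset.mem_singleton]
      exact h.ne'
  have hN3 : 3 ≤ (N H x1).card := by
    by_contra hcon
    rcases c.k3 {x1} ⟨x1, Finset.mem_singleton_self _⟩ (by rw [hnb1]; omega) x0 with h | h
    · rw [Finset.mem_singleton] at h
      exact hx0K (h ▸ hx1)
    · rw [hnb1] at h
      exact hx0nQ (hNsub h)
  have hNeq : N H x1 = nb H Q := Finset.eq_of_subset_of_card_le hNsub (by rw [hQ3]; exact hN3)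
  have hNc : (N H x1).card = 3 := by rw [hNeq, hQ3]
  have hmn := c.mn x1 hNc
  -- the image of `D l` is the neighbourhood of `v0`
  have hNv : (D l).image (Φ l) = N H v0 := by
    apply Finset.eq_of_subset_of_card_le
    · intro y hy
      obtain ⟨z, hz, rfl⟩ := Finset.mem_image.1 hy
      exact av_mem_N.2 (c.ΦD l z hz)
    · rw [c.deg, Finset.card_image_of_injOn, hD3]
      intro x hx y hy hxy
      exact c.inj l x (Finset.mem_union_right _ hx) y (Finset.mem_union_right _ hy) hxy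
  -- vertices which dominate `x1`
  have hdom : ∀ w, (∀ u, H.Adj x1 u → H.Adj w u) → w ∈ K ∪ nb H K ∧ Θ w ∈ L l ∧
      Φ l (Θ w) ≠ v0 ∧ ∀ u, H.Adj v0 u → H.Adj (Φ l (Θ w)) u := by
    intro w hw
    have hd1 : H.Adj x1 d' := av_mem_N.1 (hNeq ▸ hd')
    have hwK : w ∈ K ∪ nb H K := hKn d' hd'K w (hw d' hd1).symm
    have hadjD : ∀ δ ∈ D l, H.Adj (Θ w) δ := by
      intro δ hδ
      rw [← himgeq, Finset.mem_image] at hδ
      obtain ⟨u, hu, rfl⟩ := hδ
      have hu1 : H.Adj x1 u := av_mem_N.1 (hNeq ▸ hu)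
      exact hemb.hom w hwK u (hnbQ u hu).1 (hw u hu1)
    obtain ⟨δ0, hδ0⟩ : (D l).Nonempty := by
      rw [← Finset.card_pos, hD3]; norm_num
    have hwX : Θ w ∉ X := fun h => c.ind _ h _ (c.DX l _ hδ0) (hadjD δ0 hδ0)
    obtain ⟨l', hl'⟩ : ∃ l', Θ w ∈ L l' := by
      rcases c.cov (Θ w) with h | h
      · exact absurd h hwX
      · exact h
    have hsub : D l ⊆ D l' := by
      intro δ hδ
      rcases c.nbL l' _ hl' δ (hadjD δ hδ) with h | h
      · exact absurd (c.DX l _ hδ) (c.LX l' _ h)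
      · exact h
    have hD3' : (D l').card = 3 := h2.D3 l' ⟨_, hl'⟩
    have hDD : D l = D l' := Finset.eq_of_subset_of_card_le hsub (by rw [hD3, hD3'])
    have hll : l = l' := c.dst l l' hD3 hDD
    rw [← hll] at hl'
    refine ⟨hwK, hl', (c.ΦL l _ hl').1, ?_⟩
    intro u hu
    have hu' : u ∈ (D l).image (Φ l) := by rw [hNv]; exact av_mem_N.2 hu
    obtain ⟨δ, hδ, rfl⟩ := Finset.mem_image.1 hu'
    exact c.hom l _ (Finset.mem_union_left _ hl') _ (Finset.mem_union_right _ hδ) (hadjD δ hδ)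
  -- counting
  set Sy : Finset (Fin m) := Finset.univ.filter (fun w => w ≠ x1 ∧ ∀ u, H.Adj x1 u → H.Adj w u)
    with hSy
  set Sv : Finset (Fin m) := Finset.univ.filter (fun w => w ≠ v0 ∧ ∀ u, H.Adj v0 u → H.Adj w u)
    with hSv
  have hx1Sy : x1 ∉ Sy := by
    rw [hSy, Finset.mem_filter]
    exact fun h => h.2.1 rfl
  have hall : ∀ w ∈ insert x1 Sy, ∀ u, H.Adj x1 u → H.Adj w u := by
    intro w hw u hu
    rcases Finset.mem_insert.1 hw with h | h
    · rw [h]; exact hu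
    · rw [hSy, Finset.mem_filter] at h
      exact h.2.2 u hu
  have hcard : (insert x1 Sy).card ≤ Sv.card := by
    apply Finset.card_le_card_of_injOn (fun w => Φ l (Θ w))
    · intro w hw
      obtain ⟨_, _, h3, h4⟩ := hdom w (hall w hw)
      rw [hSv]
      simp only [Finset.coe_filter, Finset.mem_univ, true_and, Set.mem_ofPred_eq]
      exact ⟨h3, h4⟩
    · intro w hw w' hw' hww
      obtain ⟨h1, h2, _, _⟩ := hdom w (hall w hw)
      obtain ⟨h1', h2', _, _⟩ := hdom w' (hall w' hw')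
      exact hemb.inj w h1 w' h1'
        (c.inj l _ (Finset.mem_union_left _ h2) _ (Finset.mem_union_left _ h2') hww)
  rw [Finset.card_insert_of_notMem hx1Sy] at hcard
  have e1 : mu H x1 = Sy.card := rfl
  have e2 : mu H v0 = Sv.card := rfl
  omega

end Pool.Agent.Helper68.R3
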